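import Mathlib
import Pool.Agent.Q52.Lamp.Main

set_option autoImplicit false

/-!
# Groups of regular-action automata over nonabelian finite groups
-/

namespace Pool.Agent.Results.MP_e17fb9_al.NotLamplighter

open Q52.Lamp

/-- For every finite nonabelian group `Y`, neither the automaton group `G_Y` nor any subgroup of
the finite state wreath power `W_Y` is isomorphic to the restricted wreath product of `Y` by the
infinite cyclic group. -/
theorem result (Y : Type*) [Group Y] [Finite Y] (hY : ∃ a b : Y, a * b ≠ b * a) :
    IsEmpty (GY Y ≃* Lamp Y) ∧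
      ∀ H : Subgroup (Equiv.Perm (List Y)), (∀ p ∈ H, InWY p) → IsEmpty (H ≃* Lamp Y) :=
  ⟨isEmpty_of_le hY _ GY_le, fun H hH => isEmpty_of_le hY H fun p hp => (hH p hp).mem_LP⟩

end Pool.Agent.Results.MP_e17fb9_al.NotLamplighter
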